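import Pool.Agent.H410R3.NORE.G1

set_option autoImplicit false

/-! The instance of the data for the splitting of the left kernel. -/

namespace Pool.Agent.H26R3.NORE.Inst

open Pool.Agent.H410R3.NORE

section

variable (k : Type) [Field k] {R : Type} [Ring R] [Algebra k R] {m n : ℕ}
  (A : Matrix (Fin m) (Fin n) R)

/-- the pairing of a row with a column -/
noncomputable def dot : (Fin m → R) →ₗ[k] (Fin m → R) →ₗ[k] R :=
  LinearMap.mk₂ k (fun x y => ∑ q, x q * y q)
    (fun x x' y => by simp [add_mul, Finset.sum_add_distrib])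
    (fun c x y => by simp [Finset.smul_sum])
    (fun x y y' => by simp [mul_add, Finset.sum_add_distrib])
    (fun c x y => by simp [Finset.smul_sum])

theorem dot_apply (x y : Fin m → R) : dot k x y = ∑ q, x q * y q := rfl

/-- right multiplication of a column -/
noncomputable def mulR : (Fin m → R) →ₗ[k] R →ₗ[k] (Fin m → R) :=
  LinearMap.mk₂ k (fun x r q => x q * r)
    (fun x x' y => by funext q; simp [add_mul])
    (fun c x y => by funext q; simp)
    (fun x y y' => by funext q; simp [mul_add])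
    (fun c x y => by funext q; simp)

/-- left multiplication of a row -/
noncomputable def mulL : (Fin m → R) →ₗ[k] R →ₗ[k] (Fin m → R) :=
  LinearMap.mk₂ k (fun x r q => r * x q)
    (fun x x' y => by funext q; simp [mul_add])
    (fun c x y => by funext q; simp)
    (fun x y y' => by funext q; simp [add_mul])
    (fun c x y => by funext q; simp)

theorem mulR_apply (x : Fin m → R) (r : R) : mulR k x r = fun q => x q * r := rfl
theorem mulL_apply (x : Fin m → R) (r : R) : mulL k x r = fun q => r * x q := rfl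

/-- the left kernel of `A` -/
noncomputable def Zs : Submodule k (Fin m → R) where
  carrier := {z | ∀ j, ∑ q, z q * A q j = 0}
  add_mem' {a b} ha hb j := by
    simp only [Pi.add_apply, add_mul, Finset.sum_add_distrib, ha j, hb j, add_zero]
  zero_mem' j := by simp
  smul_mem' c x hx j := by
    simp only [Pi.smul_apply, smul_mul_assoc, ← Finset.smul_sum, hx j, smul_zero]

/-- the columns killed by the left kernel -/
noncomputable def Cs : Submodule k (Fin m → R) where
  carrier := {y | ∀ z ∈ Zs k A, ∑ q, z q * y q = 0}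
  add_mem' {a b} ha hb z hz := by
    simp only [Pi.add_apply, mul_add, Finset.sum_add_distrib, ha z hz, hb z hz, add_zero]
  zero_mem' z _ := by simp
  smul_mem' c x hx z hz := by
    simp only [Pi.smul_apply, mul_smul_comm, ← Finset.smul_sum, hx z hz, smul_zero]

theorem mem_Zs {z : Fin m → R} : z ∈ Zs k A ↔ ∀ j, ∑ q, z q * A q j = 0 := Iff.rfl
theorem mem_Cs {y : Fin m → R} : y ∈ Cs k A ↔ ∀ z ∈ Zs k A, ∑ q, z q * y q = 0 := Iff.rfl

theorem col_mem (j : Fin n) : (fun q => A q j) ∈ Cs k A := fun _ hz => hz j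

/-- `N` -/
abbrev NN : Type := (Fin m → R) ⧸ Cs k A

/-- `L` -/
abbrev LL : Type := (Fin m → R) ⧸ Zs k A

/-- class of a column -/
noncomputable abbrev mN : (Fin m → R) →ₗ[k] NN k A := (Cs k A).mkQ

/-- class of a row -/
noncomputable abbrev mL : (Fin m → R) →ₗ[k] LL k A := (Zs k A).mkQ

theorem mN_zero {y : Fin m → R} : mN k A y = 0 ↔ y ∈ Cs k A := by
  rw [Submodule.mkQ_apply, Submodule.Quotient.mk_eq_zero]

theorem mL_zero {y : Fin m → R} : mL k A y = 0 ↔ y ∈ Zs k A := by
  rw [Submodule.mkQ_apply, Submodule.Quotient.mk_eq_zero]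

/-- right multiplication on `N` -/
noncomputable def nr : NN k A →ₗ[k] R →ₗ[k] NN k A :=
  (Cs k A).liftQ ((mulR k).compr₂ (mN k A)) (by
    intro y hy
    rw [LinearMap.mem_ker]
    ext r
    simp only [LinearMap.compr₂_apply, mulR_apply, LinearMap.zero_apply]
    rw [mN_zero, mem_Cs]
    intro z hz
    have h := hy z hz
    simp only [← mul_assoc, ← Finset.sum_mul]
    rw [h, zero_mul])

theorem nr_mk (y : Fin m → R) (r : R) : nr k A (mN k A y) r = mN k A (fun q => y q * r) := rfl

/-- left multiplication on `L` -/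
noncomputable def laT : LL k A →ₗ[k] R →ₗ[k] LL k A :=
  (Zs k A).liftQ ((mulL k).compr₂ (mL k A)) (by
    intro y hy
    rw [LinearMap.mem_ker]
    ext r
    simp only [LinearMap.compr₂_apply, mulL_apply, LinearMap.zero_apply]
    rw [mL_zero, mem_Zs]
    intro j
    have h := hy j
    simp only [mul_assoc, ← Finset.mul_sum]
    rw [h, mul_zero])

/-- left multiplication on `L` -/
noncomputable def la : R →ₗ[k] LL k A →ₗ[k] LL k A := (laT k A).flip

theorem la_mk (r : R) (x : Fin m → R) : la k A r (mL k A x) = mL k A (fun q => r * x q) := rfl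

/-- evaluation of `N` at a row of the left kernel -/
noncomputable def ev (z : Fin m → R) (hz : z ∈ Zs k A) : NN k A →ₗ[k] R :=
  (Cs k A).liftQ (dot k z) (fun y hy => by
    rw [LinearMap.mem_ker, dot_apply]
    exact hy z hz)

theorem ev_mk (z : Fin m → R) (hz : z ∈ Zs k A) (y : Fin m → R) :
    ev k A z hz (mN k A y) = ∑ q, z q * y q := rfl

theorem mN_surj (x : NN k A) : ∃ y, mN k A y = x := Submodule.mkQ_surjective _ x
theorem mL_surj (x : LL k A) : ∃ y, mL k A y = x := Submodule.mkQ_surjective _ x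

theorem ev_nr (z : Fin m → R) (hz : z ∈ Zs k A) (x : NN k A) (r : R) :
    ev k A z hz (nr k A x r) = ev k A z hz x * r := by
  obtain ⟨y, rfl⟩ := mN_surj k A x
  rw [nr_mk, ev_mk, ev_mk, Finset.sum_mul]
  simp only [mul_assoc]

theorem ev_ext (x : NN k A) (h : ∀ z hz, ev k A z hz x = 0) : x = 0 := by
  obtain ⟨y, rfl⟩ := mN_surj k A x
  rw [mN_zero, mem_Cs]
  intro z hz
  exact h z hz

theorem nr_mul (x : NN k A) (r r' : R) : nr k A x (r * r') = nr k A (nr k A x r) r' := by
  obtain ⟨y, rfl⟩ := mN_surj k A x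
  simp only [nr_mk, mul_assoc]

theorem nr_one (x : NN k A) : nr k A x 1 = x := by
  obtain ⟨y, rfl⟩ := mN_surj k A x
  simp only [nr_mk, mul_one]

theorem la_mul (r r' : R) (x : LL k A) : la k A (r * r') x = la k A r (la k A r' x) := by
  obtain ⟨y, rfl⟩ := mL_surj k A x
  simp only [la_mk, mul_assoc]

theorem la_one (x : LL k A) : la k A 1 x = x := by
  obtain ⟨y, rfl⟩ := mL_surj k A x
  simp only [la_mk, one_mul]

/-- `ν ↦ ∑ ν_q y_q` -/
theorem sum_nr_ev (z : Fin m → R) (hz : z ∈ Zs k A) (ν : Fin m → NN k A) (y : Fin m → R) :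
    ev k A z hz (∑ q, nr k A (ν q) (y q)) = ∑ q, ev k A z hz (ν q) * y q := by
  rw [map_sum]
  simp only [ev_nr]

/-- the maps `R^m → N` that factor through `N` -/
noncomputable def Ks : Submodule k (Fin m → NN k A) where
  carrier := {ν | ∀ y ∈ Cs k A, ∑ q, nr k A (ν q) (y q) = 0}
  add_mem' {a b} ha hb y hy := by
    simp only [Pi.add_apply, map_add, LinearMap.add_apply, Finset.sum_add_distrib, ha y hy,
      hb y hy, add_zero]
  zero_mem' y _ := by simp
  smul_mem' c x hx y hy := by
    simp only [Pi.smul_apply, map_smul, LinearMap.smul_apply, ← Finset.smul_sum, hx y hy,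
      smul_zero]

theorem mem_Ks {ν : Fin m → NN k A} : ν ∈ Ks k A ↔ ∀ y ∈ Cs k A, ∑ q, nr k A (ν q) (y q) = 0 :=
  Iff.rfl

/-- `V` -/
abbrev VV : Type := (Fin m → NN k A) ⧸ Ks k A

/-- class of a row over `N` -/
noncomputable abbrev mV : (Fin m → NN k A) →ₗ[k] VV k A := (Ks k A).mkQ

theorem mV_zero {y : Fin m → NN k A} : mV k A y = 0 ↔ y ∈ Ks k A := by
  rw [Submodule.mkQ_apply, Submodule.Quotient.mk_eq_zero]

theorem mV_surj (x : VV k A) : ∃ y, mV k A y = x := Submodule.mkQ_surjective _ x

theorem sum_nr_nr (x : NN k A) (a b : Fin m → R) :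
    ∑ q, nr k A (nr k A x (a q)) (b q) = nr k A x (∑ q, a q * b q) := by
  rw [map_sum]
  simp only [nr_mul]

/-- the pairing, rows first -/
noncomputable def prB : (Fin m → R) →ₗ[k] NN k A →ₗ[k] VV k A :=
  LinearMap.mk₂ k (fun x y => mV k A (fun q => nr k A y (x q)))
    (fun x x' y => by
      rw [← map_add]
      congr 1
      funext q
      simp)
    (fun c x y => by
      rw [← map_smul]
      congr 1
      funext q
      simp)
    (fun x y y' => by
      rw [← map_add]
      congr 1
      funext q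
      simp)
    (fun c x y => by
      rw [← map_smul]
      congr 1
      funext q
      simp)

theorem prB_apply (x : Fin m → R) (y : NN k A) :
    prB k A x y = mV k A (fun q => nr k A y (x q)) := rfl

/-- the pairing -/
noncomputable def prT : LL k A →ₗ[k] NN k A →ₗ[k] VV k A :=
  (Zs k A).liftQ (prB k A) (by
    intro x hx
    rw [LinearMap.mem_ker]
    refine LinearMap.ext fun y => ?_
    rw [LinearMap.zero_apply, prB_apply, mV_zero, mem_Ks]
    intro c hc
    rw [sum_nr_nr, hc x hx, map_zero])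

/-- the pairing -/
noncomputable def pr : NN k A →ₗ[k] LL k A →ₗ[k] VV k A := (prT k A).flip

theorem pr_mk (y : NN k A) (x : Fin m → R) :
    pr k A y (mL k A x) = mV k A (fun q => nr k A y (x q)) := rfl

/-- the unit columns -/
noncomputable def nq (q : Fin m) : NN k A := mN k A (Pi.single q 1)

/-- the unit rows -/
noncomputable def el (q : Fin m) : LL k A := mL k A (Pi.single q 1)

theorem sum_nq (y : Fin m → R) : ∑ q, nr k A (nq k A q) (y q) = mN k A y := by
  simp only [nq, nr_mk]
  rw [← map_sum]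
  congr 1
  funext p
  rw [Finset.sum_apply, Finset.sum_eq_single p]
  · simp
  · intro b _ hb
    simp [Pi.single_eq_of_ne (Ne.symm hb)]
  · simp

theorem sum_el (y : Fin m → R) : ∑ q, la k A (y q) (el k A q) = mL k A y := by
  simp only [el, la_mk]
  rw [← map_sum]
  congr 1
  funext p
  rw [Finset.sum_apply, Finset.sum_eq_single p]
  · simp
  · intro b _ hb
    simp [Pi.single_eq_of_ne (Ne.symm hb)]
  · simp

theorem sum_pr_el (ν : Fin m → NN k A) : ∑ q, pr k A (ν q) (el k A q) = mV k A ν := by
  simp only [el, pr_mk]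
  rw [← map_sum]
  congr 1
  funext p
  rw [Finset.sum_apply, Finset.sum_eq_single p]
  · simp [nr_one]
  · intro b _ hb
    simp [Pi.single_eq_of_ne (Ne.symm hb)]
  · simp

theorem nq_mem : nq k A ∈ Ks k A := by
  intro y hy
  rw [sum_nq, mN_zero]
  exact hy

theorem endo (ν : Fin m → NN k A) (hν : ν ∈ Ks k A) :
    ∃ (g : NN k A →ₗ[k] NN k A) (gV : VV k A →ₗ[k] VV k A),
    (∀ q, g (nq k A q) = ν q) ∧ (∀ n r, g (nr k A n r) = nr k A (g n) r) ∧
      ∀ n x, gV (pr k A n x) = pr k A (g n) x := by
  let g0 : (Fin m → R) →ₗ[k] NN k A :=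
    { toFun := fun y => ∑ q, nr k A (ν q) (y q)
      map_add' := fun y y' => by simp [Finset.sum_add_distrib]
      map_smul' := fun c y => by simp [Finset.smul_sum] }
  let g : NN k A →ₗ[k] NN k A := (Cs k A).liftQ g0 (fun y hy => hν y hy)
  have hg : ∀ y, g (mN k A y) = ∑ q, nr k A (ν q) (y q) := fun y => rfl
  have hgr : ∀ n r, g (nr k A n r) = nr k A (g n) r := by
    intro n r
    obtain ⟨y, rfl⟩ := mN_surj k A n
    rw [nr_mk, hg, hg, map_sum, LinearMap.sum_apply]
    simp only [nr_mul]
  let g1 : (Fin m → NN k A) →ₗ[k] (Fin m → NN k A) :=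
    { toFun := fun μ q => g (μ q)
      map_add' := fun y y' => by funext q; simp
      map_smul' := fun c y => by funext q; simp }
  let gV : VV k A →ₗ[k] VV k A := (Ks k A).mapQ (Ks k A) g1 (by
    intro μ hμ
    rw [Submodule.mem_comap]
    intro y hy
    change ∑ q, nr k A (g (μ q)) (y q) = 0
    simp only [← hgr]
    rw [← map_sum, hμ y hy, map_zero])
  have hgV : ∀ μ, gV (mV k A μ) = mV k A (fun q => g (μ q)) := fun μ => rfl
  refine ⟨g, gV, fun q => ?_, hgr, fun n x => ?_⟩
  · rw [nq, hg, Finset.sum_eq_single q]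
    · simp [nr_one]
    · intro b _ hb
      simp [Pi.single_eq_of_ne hb]
    · simp
  · obtain ⟨y, rfl⟩ := mL_surj k A x
    rw [pr_mk, pr_mk, hgV]
    simp only [hgr]

theorem zed (z : Fin m → R) (hz : z ∈ Zs k A) :
    ∃ (zb : NN k A →ₗ[k] R) (zV : VV k A →ₗ[k] LL k A),
    (∀ q, zb (nq k A q) = z q) ∧ (∀ n r, zb (nr k A n r) = zb n * r) ∧
      ∀ n x, zV (pr k A n x) = la k A (zb n) x := by
  let g1 : (Fin m → NN k A) →ₗ[k] (Fin m → R) :=
    { toFun := fun μ q => ev k A z hz (μ q)
      map_add' := fun y y' => by funext q; simp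
      map_smul' := fun c y => by funext q; simp }
  let gV : VV k A →ₗ[k] LL k A := (Ks k A).mapQ (Zs k A) g1 (by
    intro μ hμ
    rw [Submodule.mem_comap]
    intro j
    change ∑ q, ev k A z hz (μ q) * A q j = 0
    rw [← sum_nr_ev k A z hz μ (fun q => A q j), hμ _ (col_mem k A j), map_zero])
  have hgV : ∀ μ, gV (mV k A μ) = mL k A (fun q => ev k A z hz (μ q)) := fun μ => rfl
  refine ⟨ev k A z hz, gV, fun q => ?_, ev_nr k A z hz, fun n x => ?_⟩
  · rw [nq, ev_mk, Finset.sum_eq_single q]
    · simp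
    · intro b _ hb
      simp [Pi.single_eq_of_ne hb]
    · simp
  · obtain ⟨y, rfl⟩ := mL_surj k A x
    rw [pr_mk, hgV, la_mk]
    simp only [ev_nr]

/-- the functionals given by the columns of `A` -/
noncomputable def lam (j : Fin n) : LL k A →ₗ[k] R :=
  (Zs k A).liftQ ((dot k).flip (fun q => A q j)) (fun y hy => by
    rw [LinearMap.mem_ker, LinearMap.flip_apply, dot_apply]
    exact hy j)

theorem lam_mk (j : Fin n) (x : Fin m → R) : lam k A j (mL k A x) = ∑ q, x q * A q j := rfl

theorem kerA (ν : Fin m → NN k A) (h : ∀ j, ∑ q, nr k A (ν q) (A q j) = 0) : ν ∈ Ks k A := by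
  intro y hy
  refine ev_ext k A _ fun z hz => ?_
  rw [sum_nr_ev]
  refine hy (fun q => ev k A z hz (ν q)) fun j => ?_
  rw [← sum_nr_ev k A z hz ν (fun q => A q j), h j, map_zero]

theorem inj_nr [IsDomain R] (x : NN k A) (r : R) (hx : x ≠ 0) (h : nr k A x r = 0) : r = 0 := by
  by_contra hr
  refine hx (ev_ext k A x fun z hz => ?_)
  have h1 := ev_nr k A z hz x r
  rw [h, map_zero] at h1
  exact (mul_eq_zero.1 h1.symm).resolve_right hr

theorem inj_pr [IsDomain R] (x : NN k A) (v : LL k A) (hx : x ≠ 0) (h : pr k A x v = 0) :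
    v = 0 := by
  obtain ⟨y, rfl⟩ := mL_surj k A v
  rw [pr_mk, mV_zero, mem_Ks] at h
  rw [mL_zero, mem_Zs]
  intro j
  have h1 := h _ (col_mem k A j)
  rw [sum_nr_nr] at h1
  exact inj_nr k A x _ hx h1

theorem inj_la [IsDomain R] (r : R) (v : LL k A) (hr : r ≠ 0) (h : la k A r v = 0) : v = 0 := by
  obtain ⟨y, rfl⟩ := mL_surj k A v
  rw [la_mk, mL_zero, mem_Zs] at h
  rw [mL_zero, mem_Zs]
  intro j
  have h1 := h j
  simp only [mul_assoc, ← Finset.mul_sum] at h1
  exact (mul_eq_zero.1 h1).resolve_left hr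

end

theorem taskInst (k : Type) [Field k] : TaskInst k := by
  intro R _ _ _ m n A
  obtain ⟨sV, hsV⟩ := (mV k A).exists_rightInverse_of_surjective (Submodule.range_mkQ _)
  obtain ⟨sL, hsL⟩ := (mL k A).exists_rightInverse_of_surjective (Submodule.range_mkQ _)
  obtain ⟨sN, hsN⟩ := (mN k A).exists_rightInverse_of_surjective (Submodule.range_mkQ _)
  have hV : ∀ v, mV k A (sV v) = v := fun v => LinearMap.congr_fun hsV v
  have hL : ∀ v, mL k A (sL v) = v := fun v => LinearMap.congr_fun hsL v
  have hN : ∀ v, mN k A (sN v) = v := fun v => LinearMap.congr_fun hsN v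
  let sq0 : Fin m → VV k A →ₗ[k] (Fin m → R) := fun q =>
    { toFun := fun v p => sN (sV v p) q
      map_add' := fun v v' => by funext p; simp
      map_smul' := fun c v => by funext p; simp }
  refine ⟨
    { L := LL k A
      N := NN k A
      V := VV k A
      nr := nr k A
      pr := pr k A
      la := la k A
      nq := nq k A
      el := el k A
      sN := fun q => (LinearMap.proj q).comp sN
      sq := fun q => (mL k A).comp (sq0 q)
      cl := mV k A
      cL := mL k A
      sV := sV
      sL := sL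
      nr_mul := nr_mul k A
      la_mul := la_mul k A
      la_one := la_one k A
      pr_la := ?_
      cl_sV := hV
      cL_sL := hL
      cl_el := sum_pr_el k A
      cL_el := sum_el k A
      nq_sN := fun x => (sum_nq k A (sN x)).trans (hN x)
      cl_nq := (mV_zero k A).2 (nq_mem k A)
      pr_sq := ?_
      endo := fun ν hν => endo k A ν ((mV_zero k A).1 hν)
      zed := fun z hz => zed k A z ((mL_zero k A).1 hz)
      inj_nr := inj_nr k A
      inj_pr := inj_pr k A
      inj_la := inj_la k A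
      lam := lam k A
      lam_la := ?_
      lam_inj := ?_
      kerA := fun ν hν => (mV_zero k A).2 (kerA k A ν hν)
      kerAR := fun ρ hρ => (mL_zero k A).2 hρ
      nqA := fun j => (sum_nq k A (fun q => A q j)).trans ((mN_zero k A).2 (col_mem k A j)) }⟩
  · intro x r v
    obtain ⟨y, rfl⟩ := mL_surj k A v
    rw [la_mk, pr_mk, pr_mk]
    simp only [nr_mul]
  · intro v
    have h1 : ∀ q, pr k A (nq k A q) ((mL k A).comp (sq0 q) v) =
        mV k A (fun p => nr k A (nq k A q) (sN (sV v p) q)) := fun q => rfl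
    simp only [h1]
    rw [← map_sum]
    have h2 : (∑ q, fun p => nr k A (nq k A q) (sN (sV v p) q)) = sV v := by
      funext p
      rw [Finset.sum_apply]
      exact (sum_nq k A (sN (sV v p))).trans (hN _)
    rw [h2, hV]
  · intro j r x
    obtain ⟨y, rfl⟩ := mL_surj k A x
    rw [la_mk, lam_mk, lam_mk, Finset.mul_sum]
    simp only [mul_assoc]
  · intro x hx
    obtain ⟨y, rfl⟩ := mL_surj k A x
    rw [mL_zero, mem_Zs]
    intro j
    exact hx j

end Pool.Agent.H26R3.NORE.Inst
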